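import Pool.Agent.T2h76.Gm5

set_option autoImplicit false

/-!
# Products of at most two primes among the values of `n ^ 2 + 1` in short intervals
-/

namespace Pool.Agent.Results.MP_7169d5_nt.P2ShortIntervals

open Finset

open Classical in
/-- **The values of `n ^ 2 + 1` with at most two prime factors in all short intervals and in residue
classes.** There are `c > 0` and `N₁` such that for all `N ≥ N₁`, for every interval `(N, N + H]` with
`N ^ 0.999 ≤ H ≤ N`, and for every residue class `u` modulo `q` with `1 ≤ q ≤ N ^ (1 / 50000)` and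
`(u ^ 2 + 1, q) = 1`, there are at least `c * H / (q * log N)` numbers `n ≡ u (mod q)` in `(N, N + H]` such
that `n ^ 2 + 1` has at most two prime factors, counted with multiplicity, all of them at least
`N ^ (6 / 25)`. -/
theorem result : ∃ c : ℝ, 0 < c ∧ ∃ N₁ : ℕ, ∀ N H : ℕ, N₁ ≤ N →
    (N : ℝ) ^ (999 / 1000 : ℝ) ≤ H → H ≤ N →
    ∀ q u : ℕ, 1 ≤ q → (q : ℝ) ≤ (N : ℝ) ^ (1 / 50000 : ℝ) → Nat.Coprime (u ^ 2 + 1) q →
    c * (H / (q * Real.log N)) ≤
      (((Ioc N (N + H)).filter (fun n => n ≡ u [MOD q] ∧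
        (n ^ 2 + 1).primeFactorsList.length ≤ 2 ∧
        ∀ p : ℕ, p.Prime → p ∣ n ^ 2 + 1 → (N : ℝ) ^ (6 / 25 : ℝ) ≤ p)).card : ℝ) := by
  obtain ⟨c, N1, hc, h⟩ := Pool.Agent.T2h76.count
  refine ⟨c, hc, N1, ?_⟩
  intro N H hN hH hHN q u hq1 hqN hu
  have h1 := h N H hN hHN hH q u hq1 hqN (by
    intro p hp hpq hpu
    have h2 : p ∣ u ^ 2 + 1 := by exact_mod_cast hpu
    exact Nat.Prime.one_lt hp |>.ne' (Nat.eq_one_of_dvd_coprimes hu h2 hpq))
  refine h1.trans ?_
  norm_cast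
  apply card_le_card_of_injOn Int.toNat
  · intro n hn
    rw [mem_coe, mem_filter, mem_Ioc] at hn
    obtain ⟨⟨a1, a2⟩, a3, a4, a5⟩ := hn
    obtain ⟨m, rfl⟩ : ∃ m : ℕ, n = m := ⟨n.toNat, by omega⟩
    rw [mem_coe, mem_filter, mem_Ioc, Int.toNat_natCast]
    have e : (((m : ℤ) ^ 2 + 1).natAbs : ℕ) = m ^ 2 + 1 := by
      have : ((m : ℤ) ^ 2 + 1) = ((m ^ 2 + 1 : ℕ) : ℤ) := by push_cast; ring
      rw [this, Int.natAbs_natCast]
    rw [e] at a4
    refine ⟨⟨by omega, by omega⟩, ?_, a4, ?_⟩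
    · apply Nat.ModEq.symm
      rw [← Int.natCast_modEq_iff]
      exact (Int.modEq_iff_dvd).2 a3
    · intro p hp hpm
      apply a5 p hp
      exact_mod_cast hpm
  · intro n hn n' hn' hnn
    rw [mem_coe, mem_filter, mem_Ioc] at hn hn'
    have h2 : 0 ≤ n := by omega
    have h3 : 0 ≤ n' := by omega
    have : (n.toNat : ℤ) = (n'.toNat : ℤ) := by exact_mod_cast hnn
    rwa [Int.toNat_of_nonneg h2, Int.toNat_of_nonneg h3] at this

end Pool.Agent.Results.MP_7169d5_nt.P2ShortIntervals
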