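import Pool.Agent.T3H29.DI.Presc

set_option autoImplicit false

/-!
# Almost primes `n ^ 2 + 1` in thin sets of integers defined by their digits

For large bases `b`, every `α > 1 / 2` and every choice of intervals of at least `b ^ α` digits, the integers
`n < x = b ^ k` all of whose digits are in the prescribed intervals form a set `S` of about `x ^ α` elements (if the
intervals have about this length). For a positive proportion `≥ δ / log x` of the `n ∈ S` the number `n ^ 2 + 1` has
at most `5` prime factors; at most `4` if `α > 269 / 500`, at most `3` if `α > 29 / 40`. The same is true if a few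
digits are removed from each interval. With `b = g ^ j` for a fixed base `g`: up to a proportion `1 / 2` (`5` prime
factors), `231 / 500` (`4`), `11 / 40` (`3`) of the digits in base `g` of `n` may be prescribed arbitrarily.

Proof (`Pool/Agent/T3H29/DI`, with `DG` and `DS`): the L^1 norm of the exponential sum of an interval of digits is
small, and an inequality of large sieve type over the Farey fractions gives the level of distribution
`x ^ (α - ε)` of `S` for moduli prime to `b` (the last digit is fixed such that `n ^ 2 + a` is prime to `b`); the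
weighted sieve of the starting library; the values divisible by the square of a medium prime `q` are few since the
residue classes modulo `q ^ 2` contain at most `b |S| q ^ (-2 α')` or `1` elements of `S`.
-/

namespace Pool.Agent.Results.MP_7169d5_nt.ThinDigitSets

open Finset Filter

/-- The integers `n < b ^ k` with restricted digits: for every place `i < k` the digit `n / b ^ i % b` of `n`
in base `b` belongs to `D i`. -/
def restricted (b : ℕ) (D : ℕ → Finset ℕ) (k : ℕ) : Finset ℕ :=
  (range (b ^ k)).filter (fun n : ℕ => ∀ i < k, n / b ^ i % b ∈ D i)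

/-- `D` consists of all but at most `b ^ μ` of the digits of an interval `{s, …, s + l - 1}` of `l ≥ b ^ α` digits
in base `b`. -/
def IntervalDigits (b : ℕ) (α μ : ℝ) (D : Finset ℕ) : Prop :=
  ∃ s l : ℕ, (b : ℝ) ^ α ≤ l ∧ s + l ≤ b ∧ D ⊆ Ico s (s + l) ∧ ((Ico s (s + l) \ D).card : ℝ) ≤ (b : ℝ) ^ μ

/-- The integers `n < g ^ (j k)` with prescribed digits in base `g` at the places `l` with `h ≤ l % j`: the digit
`n / g ^ l % g` is `c l`. -/
def prescribed (g j h k : ℕ) (c : ℕ → ℕ) : Finset ℕ :=
  (range (g ^ (j * k))).filter (fun n : ℕ => ∀ l < j * k, h ≤ l % j → n / g ^ l % g = c l)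

open Classical in
/-- The number of the elements `n` of `S` such that `n ^ 2 + a` has at most `r` prime factors (counted with
multiplicity), all of them at least `w`. -/
noncomputable def almostPrimes (a : ℤ) (r : ℕ) (w : ℝ) (S : Finset ℕ) : ℕ :=
  (S.filter (fun n : ℕ => ((n : ℤ) ^ 2 + a).natAbs.primeFactorsList.length ≤ r ∧
    ∀ p : ℕ, p.Prime → (p : ℤ) ∣ (n : ℤ) ^ 2 + a → w ≤ p)).card

open Classical in
theorem core (a : ℤ) (ha : ¬ IsSquare (-a)) (r : ℕ) (t z : ℝ)
    (hpar : (r = 5 ∧ 1 / 2 ≤ t ∧ z = 2 / 5 * t) ∨ (r = 4 ∧ 269 / 500 ≤ t ∧ z = t / 4) ∨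
      (r = 3 ∧ 29 / 40 ≤ t ∧ z = t / 4)) (α μ : ℝ) (hμ0 : 0 < μ) (hα1 : α ≤ 1) (htα : t < α - μ) :
    ∃ b0 : ℕ, ∀ b : ℕ, b0 ≤ b → ∃ δ : ℝ, 0 < δ ∧ ∃ k0 : ℕ, ∀ k : ℕ, k0 ≤ k → ∀ D : ℕ → Finset ℕ,
      (∀ i < k, IntervalDigits b α μ (D i)) →
      δ * (restricted b D k).card / k ≤
        (almostPrimes a r (((b : ℝ) ^ k) ^ z) (restricted b D k) : ℝ) := by
  rcases hpar with ⟨rfl, ht0, rfl⟩ | ⟨rfl, ht0, rfl⟩ | ⟨rfl, ht0, rfl⟩
  · have hc := Pool.Agent.Y882.KW.cond_B t (20 / 31) (by linarith) (by norm_num) (by norm_num)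
    exact Pool.Agent.T3H29.DI.finI a ha 5 t (2 / 5 * t) (9 / 10 * t) (20 / 31)
      (1001 / 500) (by linarith) (by linarith) (by linarith) (by linarith) (by linarith)
      (by linarith) (by norm_num) hc (by norm_num) (by
        have h3 : (1001 / 500 : ℝ) / (9 / 10 * t) ≤ 4449 / 1000 := by
          rw [div_le_iff₀ (by linarith)]
          linarith
        push_cast
        norm_num at h3 ⊢
        linarith) α μ hμ0 hα1 (by linarith) htα
  · have hc := Pool.Agent.Y882.KW.cond_A t (8 / 9) (by linarith) (by norm_num) (by norm_num)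
    exact Pool.Agent.T3H29.DI.finI a ha 4 t (t / 4) (24 / 25 * t) (8 / 9)
      (2001 / 1000) (by linarith) (by linarith) (by linarith) (by linarith) (by linarith)
      (by linarith) (by norm_num) hc (by norm_num) (by
        have h3 : (2001 / 1000 : ℝ) / (24 / 25 * t) ≤ 3875 / 1000 := by
          rw [div_le_iff₀ (by linarith)]
          linarith
        push_cast
        norm_num at h3 ⊢
        linarith) α μ hμ0 hα1 (by linarith) htα
  · have hc := Pool.Agent.Y882.KW.cond_A t (8 / 9) (by linarith) (by norm_num) (by norm_num)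
    exact Pool.Agent.T3H29.DI.finI a ha 3 t (t / 4) (24 / 25 * t) (8 / 9)
      (2001 / 1000) (by linarith) (by linarith) (by linarith) (by linarith) (by linarith)
      (by linarith) (by norm_num) hc (by norm_num) (by
        have h3 : (2001 / 1000 : ℝ) / (24 / 25 * t) ≤ 2875 / 1000 := by
          rw [div_le_iff₀ (by linarith)]
          linarith
        push_cast
        norm_num at h3 ⊢
        linarith) α μ hμ0 hα1 (by linarith) htα

/-- **Almost prime values of `n ^ 2 + a` in thin sets of integers defined by their digits.**  Let `-a` be no perfect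
square, for instance `a = 1`, and let `r = 5`, `1 / 2 ≤ t`, `z = 2 t / 5`, or `r = 4`, `269 / 500 ≤ t`,
`z = t / 4`, or `r = 3`, `29 / 40 ≤ t`, `z = t / 4`.

(1) Let `0 < μ`, `α ≤ 1` and `t < α - μ`.  For every large base `b` there is a `δ > 0` such that for all large `k` and
all sets `D 0, …, D (k - 1)` of digits, each of which consists of all but at most `b ^ μ` of the digits of an interval
of at least `b ^ α` digits, at least `δ |S| / k` of the elements `n` of the set `S` of the integers `n < b ^ k` all of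
whose digits are in the respective sets are such that `n ^ 2 + a` has at most `r` prime factors, all of them at least
`b ^ (k z)`.

(2) Let `g ≥ 2` and `t < α < 1`.  For every large `j` there is a `δ > 0` such that for all large `k`, all
`h` with `α j ≤ h ≤ j` and all prescribed digits `c l < g`, at least `δ g ^ (h k) / k` of the `g ^ (h k)` integers
`n < g ^ (j k)` whose digit in base `g` is `c l` at all the places `l < j k` with `h ≤ l % j` are such that
`n ^ 2 + a` has at most `r` prime factors, all of them at least `g ^ (j k z)`. -/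
theorem result (a : ℤ) (ha : ¬ IsSquare (-a)) (r : ℕ) (t z : ℝ)
    (hpar : (r = 5 ∧ 1 / 2 ≤ t ∧ z = 2 / 5 * t) ∨ (r = 4 ∧ 269 / 500 ≤ t ∧ z = t / 4) ∨
      (r = 3 ∧ 29 / 40 ≤ t ∧ z = t / 4)) :
    (∀ α μ : ℝ, 0 < μ → α ≤ 1 → t < α - μ →
      ∀ᶠ b : ℕ in atTop, ∃ δ : ℝ, 0 < δ ∧ ∀ᶠ k : ℕ in atTop, ∀ D : ℕ → Finset ℕ,
        (∀ i < k, IntervalDigits b α μ (D i)) →
        δ * (restricted b D k).card / k ≤
          (almostPrimes a r (((b : ℝ) ^ k) ^ z) (restricted b D k) : ℝ)) ∧
    (∀ g : ℕ, 2 ≤ g → ∀ α : ℝ, t < α → α < 1 →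
      ∀ᶠ j : ℕ in atTop, ∃ δ : ℝ, 0 < δ ∧ ∀ᶠ k : ℕ in atTop, ∀ h : ℕ, α * j ≤ h → h ≤ j →
        ∀ c : ℕ → ℕ, (∀ l, c l < g) →
        (prescribed g j h k c).card = g ^ (h * k) ∧
        δ * (g : ℝ) ^ (h * k) / k ≤
          (almostPrimes a r (((g : ℝ) ^ (j * k)) ^ z) (prescribed g j h k c) : ℝ)) := by
  classical
  constructor
  · intro α μ hμ hα1 htα
    obtain ⟨b0, H⟩ := core a ha r t z hpar α μ hμ hα1 htα
    refine eventually_atTop.2 ⟨b0, fun b hb => ?_⟩
    obtain ⟨δ, hδ, k0, HK⟩ := H b hb
    exact ⟨δ, hδ, eventually_atTop.2 ⟨k0, fun k hk D hD => HK k hk D hD⟩⟩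
  · intro g hg α htα hα1
    obtain ⟨b0, H⟩ := core a ha r t z hpar α ((α - t) / 2) (by linarith) hα1.le (by linarith)
    refine eventually_atTop.2 ⟨max b0 1, fun j hj => ?_⟩
    have hj1 : 0 < j := (le_max_right b0 1).trans hj
    have hjb : b0 ≤ g ^ j := (le_max_left b0 1).trans (hj.trans (Nat.lt_pow_self (by omega)).le)
    obtain ⟨δ, hδ, k0, HK⟩ := H (g ^ j) hjb
    refine ⟨δ, hδ, eventually_atTop.2 ⟨k0, fun k hk h hαh hhj c hc => ?_⟩⟩
    have h1 : prescribed g j h k c = restricted (g ^ j) (fun i => Pool.Agent.T3H29.DI.blk g j h c i) k :=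
      Pool.Agent.T3H29.DI.presc_eq g j h k hg hj1 c
    have h2 : (restricted (g ^ j) (fun i => Pool.Agent.T3H29.DI.blk g j h c i) k).card = g ^ (h * k) :=
      Pool.Agent.T3H29.DI.presc_card g j h k hg hhj c hc
    have h3 := HK k hk (fun i => Pool.Agent.T3H29.DI.blk g j h c i) (fun i _ =>
      Pool.Agent.T3H29.DI.blk_int g j h hg hhj c hc i α _ hαh)
    rw [h1]
    refine ⟨h2, ?_⟩
    rw [h2] at h3
    have h4 : (((g ^ j : ℕ) : ℝ) ^ k) = (g : ℝ) ^ (j * k) := by
      push_cast
      rw [pow_mul]
    rw [h4] at h3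
    push_cast at h3
    exact h3

end Pool.Agent.Results.MP_7169d5_nt.ThinDigitSets
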